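import Pool.Agent.FCV.A12

set_option autoImplicit false

namespace Pool.Agent.Results.MP_fb3574_al.AllFC

open scoped commutatorElement Pointwise

/-- A direct variety: a class of groups closed under isomorphism, subgroups, quotients and
restricted direct products (the restricted product is the subgroup of the full product
generated by the factors). -/
structure IsDirectVariety (C : ∀ (G : Type) [Group G], Prop) : Prop where
  iso : ∀ (G H : Type) [Group G] [Group H], (G ≃* H) → C G → C H
  sub : ∀ (G : Type) [Group G] (H : Subgroup G), C G → C ↥H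
  quot : ∀ (G : Type) [Group G] (N : Subgroup G) [N.Normal], C G → C (G ⧸ N)
  prod : ∀ (ι : Type) [DecidableEq ι] (G : ι → Type) [∀ i, Group (G i)],
    (∀ i, C (G i)) → C ↥(⨆ i, (MonoidHom.mulSingle G i).range)

/-- `G` lies in the direct variety generated by the class `Y`. -/
def InDV (Y : ∀ (G : Type) [Group G], Prop) (G : Type) [Group G] : Prop :=
  ∀ C : (∀ (G : Type) [Group G], Prop), IsDirectVariety C →
    (∀ (H : Type) [Group H], Y H → C H) → C G

/-- FC-groups: all conjugacy classes are finite. -/
def IsFC (G : Type) [Group G] : Prop := ∀ g : G, {h : G | IsConj g h}.Finite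

/-- The class of groups with finite derived subgroup. -/
def FinDerived (G : Type) [Group G] : Prop := Finite ↥(commutator G)

/-- The class of FC-groups with quasicyclic derived subgroup. -/
def QuasiDerived (G : Type) [Group G] : Prop :=
  IsFC G ∧ ∃ p : ℕ, p.Prime ∧
    Nonempty (↥(commutator G) ≃* ↥(⨆ n : ℕ, rootsOfUnity (p ^ n) ℂ))

theorem inj_FC {G H : Type} [Group G] [Group H] (f : G →* H) (hf : Function.Injective f)
    (h : IsFC H) : IsFC G := by
  intro g
  refine ((h (f g)).preimage (f := f) hf.injOn).subset ?_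
  intro u hu
  obtain ⟨c, hc⟩ := isConj_iff.mp hu
  refine isConj_iff.mpr ⟨f c, ?_⟩
  rw [← hc]; simp

/-- The class of FC-groups is a direct variety. -/
theorem fc_variety : IsDirectVariety (fun G _ => IsFC G) where
  iso := fun G H _ _ e h => inj_FC e.symm.toMonoidHom e.symm.injective h
  sub := fun G _ H h => inj_FC H.subtype H.subtype_injective h
  quot := by
    intro G _ N _ h x
    obtain ⟨g, rfl⟩ := QuotientGroup.mk_surjective x
    refine ((h g).image (QuotientGroup.mk' N)).subset ?_
    intro u hu
    obtain ⟨c, hc⟩ := isConj_iff.mp hu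
    obtain ⟨c, rfl⟩ := QuotientGroup.mk_surjective c
    refine ⟨c * g * c⁻¹, isConj_iff.mpr ⟨c, rfl⟩, ?_⟩
    rw [← hc]; rfl
  prod := by
    intro ι _ G _ h
    have h1 : (⨆ i, (MonoidHom.mulSingle G i).range) ≤ Pool.Agent.FCV.fcE (∀ i, G i) := by
      refine iSup_le ?_
      rintro i _ ⟨x, rfl⟩
      refine ((h i x).image (Pi.mulSingle i)).subset ?_
      rintro _ ⟨c, rfl⟩
      refine ⟨(c i)⁻¹ * x * c i, isConj_iff.mpr ⟨(c i)⁻¹, by simp⟩, ?_⟩
      funext j
      show Pi.mulSingle i ((c i)⁻¹ * x * c i) j = (c j)⁻¹ * Pi.mulSingle i x j * c j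
      by_cases hj : j = i
      · subst hj
        rw [Pi.mulSingle_eq_same, Pi.mulSingle_eq_same]
      · rw [Pi.mulSingle_eq_of_ne hj, Pi.mulSingle_eq_of_ne hj]
        simp
    intro r
    have h2 := h1 r.2
    refine (Set.Finite.preimage (f := Subtype.val) Subtype.val_injective.injOn h2).subset ?_
    intro u hu
    obtain ⟨c, hc⟩ := isConj_iff.mp hu
    refine ⟨(c.1)⁻¹, ?_⟩
    rw [← hc]
    simp

theorem fin_fc {G : Type} [Group G] (h : FinDerived G) : IsFC G := by
  intro g
  have h' : Finite ((commutator G : Subgroup G) : Set G) := h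
  have hf : ((commutator G : Subgroup G) : Set G).Finite := Set.toFinite _
  refine (hf.image (fun t => t * g)).subset ?_
  intro u hu
  obtain ⟨c, hc⟩ := isConj_iff.mp hu
  refine ⟨⁅c, g⁆, Subgroup.commutator_mem_commutator (Subgroup.mem_top _) (Subgroup.mem_top _), ?_⟩
  show ⁅c, g⁆ * g = u
  rw [← hc, commutatorElement_def]; group

/-- The class of all FC-groups is the direct variety generated by the groups with finite derived
subgroup; it is also the direct variety generated by these groups together with the FC-groups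
with quasicyclic derived subgroup. -/
theorem result :
    (∀ (G : Type) [Group G],
      IsFC G ↔ InDV (fun H _ => FinDerived H ∨ QuasiDerived H) G) ∧
    (∀ (G : Type) [Group G], IsFC G ↔ InDV (fun H _ => FinDerived H) G) := by
  have key : ∀ (G : Type) [Group G], IsFC G → InDV (fun H _ => FinDerived H) G := by
    intro G _ hG C hC hY
    exact Pool.Agent.FCV.FCG_mem (C := C) ⟨hC.iso, hC.sub, hC.quot, hC.prod, hY⟩ hG
  refine ⟨fun G _ => ⟨fun hG C hC hY => key G hG C hC (fun H _ hH => hY H (Or.inl hH)), ?_⟩,
    fun G _ => ⟨key G, ?_⟩⟩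
  · intro h
    refine h (fun G _ => IsFC G) fc_variety ?_
    intro H _ hH
    rcases hH with hH | hH
    · exact fin_fc hH
    · exact hH.1
  · intro h
    exact h (fun G _ => IsFC G) fc_variety (fun H _ hH => fin_fc hH)

end Pool.Agent.Results.MP_fb3574_al.AllFC
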