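import Mathlib

set_option autoImplicit false

namespace Pool.Agent.Results.MP_fb3574_al.ClassTwo

open scoped commutatorElement IsMulCommutative

/-- A direct variety: a class of groups closed under isomorphism, subgroups, quotients and
restricted direct products (the restricted product is the subgroup of the full product
generated by the factors). -/
structure IsDirectVariety (C : ∀ (G : Type) [Group G], Prop) : Prop where
  iso : ∀ (G H : Type) [Group G] [Group H], (G ≃* H) → C G → C H
  sub : ∀ (G : Type) [Group G] (H : Subgroup G), C G → C ↥H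
  quot : ∀ (G : Type) [Group G] (N : Subgroup G) [N.Normal], C G → C (G ⧸ N)
  prod : ∀ (ι : Type) [DecidableEq ι] (G : ι → Type) [∀ i, Group (G i)],
    (∀ i, C (G i)) → C ↥(⨆ i, (MonoidHom.mulSingle G i).range)

/-- `G` lies in the direct variety generated by the class `Y`. -/
def InDV (Y : ∀ (G : Type) [Group G], Prop) (G : Type) [Group G] : Prop :=
  ∀ C : (∀ (G : Type) [Group G], Prop), IsDirectVariety C →
    (∀ (H : Type) [Group H], Y H → C H) → C G

/-- FC-groups: all conjugacy classes are finite. -/
def IsFC (G : Type) [Group G] : Prop := ∀ g : G, {h : G | IsConj g h}.Finite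

/-- The class of groups with finite derived subgroup. -/
def FinDerived (G : Type) [Group G] : Prop := Finite ↥(commutator G)

/-- The class of FC-groups with quasicyclic derived subgroup. -/
def QuasiDerived (G : Type) [Group G] : Prop :=
  IsFC G ∧ ∃ p : ℕ, p.Prime ∧
    Nonempty (↥(commutator G) ≃* ↥(⨆ n : ℕ, rootsOfUnity (p ^ n) ℂ))

/-! ### Heisenberg type groups -/

/-- The group on `A × L` with product `(a, l)(a', l') = (a + a' + B l l', l + l')`. -/
@[ext] structure Hs {A L : Type} [AddCommGroup A] [AddCommGroup L] (B : L →+ L →+ A) where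
  z : A
  v : L

namespace Hs

variable {A L : Type} [AddCommGroup A] [AddCommGroup L] {B : L →+ L →+ A}

instance : Mul (Hs B) := ⟨fun x y => ⟨x.z + y.z + B x.v y.v, x.v + y.v⟩⟩
instance : One (Hs B) := ⟨⟨0, 0⟩⟩
instance : Inv (Hs B) := ⟨fun x => ⟨-x.z + B x.v x.v, -x.v⟩⟩

@[simp] theorem mul_z (x y : Hs B) : (x * y).z = x.z + y.z + B x.v y.v := rfl
@[simp] theorem mul_v (x y : Hs B) : (x * y).v = x.v + y.v := rfl
@[simp] theorem one_z : (1 : Hs B).z = 0 := rfl
@[simp] theorem one_v : (1 : Hs B).v = 0 := rfl
@[simp] theorem inv_z (x : Hs B) : (x⁻¹).z = -x.z + B x.v x.v := rfl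
@[simp] theorem inv_v (x : Hs B) : (x⁻¹).v = -x.v := rfl

instance : Group (Hs B) := Group.ofLeftAxioms
  (by
    intro x y w
    ext
    · simp only [mul_z, mul_v, map_add, AddMonoidHom.add_apply]; abel
    · simp only [mul_v]; abel)
  (by
    intro x
    ext <;> simp)
  (by
    intro x
    ext <;> simp)

theorem comm_v (x y : Hs B) : (⁅x, y⁆).v = 0 := by
  simp [commutatorElement_def]

theorem comm_z (x y : Hs B) : (⁅x, y⁆).z = B x.v y.v - B y.v x.v := by
  simp only [commutatorElement_def, mul_z, mul_v, inv_z, inv_v, map_add, map_neg,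
    AddMonoidHom.add_apply, AddMonoidHom.neg_apply]
  abel

/-- Functoriality. -/
def map {A' L' : Type} [AddCommGroup A'] [AddCommGroup L'] {B' : L' →+ L' →+ A'}
    (f : A →+ A') (g : L →+ L') (h : ∀ l l', B' (g l) (g l') = f (B l l')) :
    Hs B →* Hs B' where
  toFun x := ⟨f x.z, g x.v⟩
  map_one' := by ext <;> simp
  map_mul' x y := by
    ext
    · simp [h]
    · simp

@[simp] theorem map_z {A' L' : Type} [AddCommGroup A'] [AddCommGroup L'] {B' : L' →+ L' →+ A'}
    (f : A →+ A') (g : L →+ L') (h : ∀ l l', B' (g l) (g l') = f (B l l')) (x : Hs B) :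
    (map f g h x).z = f x.z := rfl

@[simp] theorem map_v {A' L' : Type} [AddCommGroup A'] [AddCommGroup L'] {B' : L' →+ L' →+ A'}
    (f : A →+ A') (g : L →+ L') (h : ∀ l l', B' (g l) (g l') = f (B l l')) (x : Hs B) :
    (map f g h x).v = g x.v := rfl

/-- The subgroup `{(a, 0) : a ∈ F}`. -/
def sub (B : L →+ L →+ A) (F : AddSubgroup A) : Subgroup (Hs B) where
  carrier := {x | x.z ∈ F ∧ x.v = 0}
  one_mem' := ⟨F.zero_mem, rfl⟩
  mul_mem' := by
    rintro x y ⟨hx, hx'⟩ ⟨hy, hy'⟩
    refine ⟨?_, ?_⟩
    · simp [hx', F.add_mem hx hy]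
    · simp [hx', hy']
  inv_mem' := by
    rintro x ⟨hx, hx'⟩
    refine ⟨?_, ?_⟩
    · simp [hx', hx]
    · simp [hx']

theorem finDerived (F : AddSubgroup A) (hF : Finite F) (hB : ∀ l l', B l l' ∈ F) :
    FinDerived (Hs B) := by
  have h1 : commutator (Hs B) ≤ sub B F := by
    rw [commutator_def, Subgroup.commutator_le]
    intro x _ y _
    refine ⟨?_, comm_v x y⟩
    rw [comm_z]
    exact F.sub_mem (hB _ _) (hB _ _)
  have h2 : Finite (sub B F) := by
    refine Finite.of_injective (fun x : sub B F => (⟨x.1.z, x.2.1⟩ : F)) ?_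
    rintro ⟨x, hx⟩ ⟨y, hy⟩ h
    simp only [Subtype.mk.injEq] at h
    apply Subtype.ext
    ext
    · exact h
    · show x.v = y.v
      rw [hx.2, hy.2]
  exact Finite.of_injective _ (Subgroup.inclusion_injective h1)

end Hs

/-! ### Bilinear maps from values on a basis -/

section Bil

variable {X A : Type} [AddCommGroup A]

/-- The biadditive map on `X →₀ ℤ` with given values on the basis. -/
noncomputable def bil (b : X → X → A) : (X →₀ ℤ) →+ (X →₀ ℤ) →+ A :=
  Finsupp.liftAddHom (fun α => zmultiplesHom _
    (Finsupp.liftAddHom (fun β => zmultiplesHom _ (b α β))))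

theorem bil_single (b : X → X → A) (α β : X) (m n : ℤ) :
    bil b (Finsupp.single α m) (Finsupp.single β n) = m • n • b α β := by
  simp [bil]

theorem bil_ext {B B' : (X →₀ ℤ) →+ (X →₀ ℤ) →+ A}
    (h : ∀ α β, B (Finsupp.single α 1) (Finsupp.single β 1) =
      B' (Finsupp.single α 1) (Finsupp.single β 1)) : B = B' := by
  ext α β
  exact h α β

theorem bil_mem (b : X → X → A) (F : AddSubgroup A) (h : ∀ α β, b α β ∈ F) (l l' : X →₀ ℤ) :
    bil b l l' ∈ F := by
  induction l using Finsupp.induction_linear with
  | zero => simp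
  | add f g hf hg =>
    rw [map_add, AddMonoidHom.add_apply]
    exact F.add_mem hf hg
  | single α m =>
    induction l' using Finsupp.induction_linear with
    | zero => simp
    | add f g hf hg =>
      rw [map_add]
      exact F.add_mem hf hg
    | single β n =>
      rw [bil_single]
      exact F.zsmul_mem (F.zsmul_mem (h α β) n) m

theorem bil_map {A' : Type} [AddCommGroup A'] (b : X → X → A) (f : A →+ A') (l l' : X →₀ ℤ) :
    bil (fun α β => f (b α β)) l l' = f (bil b l l') := by
  induction l using Finsupp.induction_linear with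
  | zero => simp
  | add g g' hg hg' => simp only [map_add, AddMonoidHom.add_apply, hg, hg']
  | single α m =>
    induction l' using Finsupp.induction_linear with
    | zero => simp
    | add g g' hg hg' => simp only [map_add, hg, hg']
    | single β n => simp only [bil_single, map_zsmul]

theorem bil_filter (b : X → X → A) (p : X → Prop) [DecidablePred p]
    (h : ∀ α β, b α β ≠ 0 → p α ∧ p β) (l l' : X →₀ ℤ) :
    bil b (Finsupp.filterAddHom p l) (Finsupp.filterAddHom p l') = bil b l l' := by
  induction l using Finsupp.induction_linear with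
  | zero => simp
  | add g g' hg hg' => simp only [map_add, AddMonoidHom.add_apply, hg, hg']
  | single α m =>
    induction l' using Finsupp.induction_linear with
    | zero => simp
    | add g g' hg hg' => simp only [map_add, hg, hg']
    | single β n =>
      have e : ∀ (q : X → Prop) [DecidablePred q] (γ : X) (k : ℤ),
          Finsupp.filterAddHom q (Finsupp.single γ k) = if q γ then Finsupp.single γ k else 0 := by
        intro q _ γ k
        show Finsupp.filter q (Finsupp.single γ k) = _
        split_ifs with hq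
        · exact Finsupp.filter_single_of_pos q hq
        · exact Finsupp.filter_single_of_neg q hq
      rw [e, e, bil_single]
      by_cases h0 : b α β = 0
      · split_ifs <;> simp [bil_single, h0]
      · obtain ⟨h1, h2⟩ := h α β h0
        rw [if_pos h1, if_pos h2, bil_single]

end Bil

/-! ### Restricted products -/

theorem mem_restricted {ι : Type} [DecidableEq ι] (K : ι → Type) [∀ i, Group (K i)]
    (x : ∀ i, K i) (hx : {i | x i ≠ 1}.Finite) :
    x ∈ (⨆ i, (MonoidHom.mulSingle K i).range) := by
  apply Submonoid.pi_mem_of_mulSingle_mem_aux hx.toFinset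
  · intro i hi
    by_contra h
    exact hi (by simpa using h)
  · intro i _
    exact (le_iSup (fun i => (MonoidHom.mulSingle K i).range) i) ⟨x i, rfl⟩

/-! ### The decomposition for groups of class two -/

section Main

variable {G : Type} [Group G]

theorem comm_mul_right (hc : commutator G ≤ Subgroup.center G) (a b c : G) :
    ⁅a, b * c⁆ = ⁅a, b⁆ * ⁅a, c⁆ := by
  have h : ⁅a, c⁆ ∈ Subgroup.center G :=
    hc (Subgroup.commutator_mem_commutator (Subgroup.mem_top a) (Subgroup.mem_top c))
  have h2 := (Subgroup.mem_center_iff.1 h) b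
  have : ⁅a, b * c⁆ = ⁅a, b⁆ * (b * ⁅a, c⁆ * b⁻¹) := by
    simp only [commutatorElement_def]; group
  rw [this, h2]; group

theorem comm_mul_left (hc : commutator G ≤ Subgroup.center G) (a b c : G) :
    ⁅a * b, c⁆ = ⁅a, c⁆ * ⁅b, c⁆ := by
  rw [← inv_inj, commutatorElement_inv, comm_mul_right hc, mul_inv_rev, commutatorElement_inv,
    commutatorElement_inv]
  have h : ⁅c, a⁆ ∈ Subgroup.center G :=
    hc (Subgroup.commutator_mem_commutator (Subgroup.mem_top c) (Subgroup.mem_top a))
  exact ((Subgroup.mem_center_iff.1 h) _).symm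

/-- The commutator as a map into the centre. -/
def kap (hc : commutator G ≤ Subgroup.center G) (a : G) : G →* ↥(Subgroup.center G) where
  toFun b := ⟨⁅a, b⁆,
    hc (Subgroup.commutator_mem_commutator (Subgroup.mem_top a) (Subgroup.mem_top b))⟩
  map_one' := by
    apply Subtype.ext
    exact commutatorElement_one_right a
  map_mul' b c := by
    apply Subtype.ext
    exact comm_mul_right hc a b c

/-- The set of all commutators with a given element, an additive subgroup of the centre. -/
def R (hc : commutator G ≤ Subgroup.center G) (a : G) :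
    AddSubgroup (Additive ↥(Subgroup.center G)) :=
  Subgroup.toAddSubgroup (kap hc a).range

/-- The commutator, written additively. -/
def cc (hc : commutator G ≤ Subgroup.center G) (a b : G) : Additive ↥(Subgroup.center G) :=
  Additive.ofMul (kap hc a b)

theorem cc_mem_left (hc : commutator G ≤ Subgroup.center G) (a b : G) : cc hc a b ∈ R hc a :=
  ⟨b, rfl⟩

theorem cc_symm (hc : commutator G ≤ Subgroup.center G) (a b : G) :
    cc hc a b = - cc hc b a := by
  show Additive.ofMul (kap hc a b) = Additive.ofMul ((kap hc b a)⁻¹)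
  congr 1
  apply Subtype.ext
  show ⁅a, b⁆ = ⁅b, a⁆⁻¹
  rw [commutatorElement_inv]

theorem cc_self (hc : commutator G ≤ Subgroup.center G) (a : G) : cc hc a a = 0 := by
  show Additive.ofMul (kap hc a a) = Additive.ofMul 1
  congr 1
  apply Subtype.ext
  show ⁅a, a⁆ = 1
  rw [commutatorElement_self]

theorem cc_mem_right (hc : commutator G ≤ Subgroup.center G) (a b : G) :
    cc hc a b ∈ R hc b := by
  rw [cc_symm]
  exact (R hc b).neg_mem (cc_mem_left hc b a)

theorem R_finite (hG : IsFC G) (hc : commutator G ≤ Subgroup.center G) (a : G) :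
    (R hc a : Set (Additive ↥(Subgroup.center G))).Finite := by
  have h1 : ((fun h : G => a * h⁻¹) '' {h : G | IsConj a h}).Finite := (hG a).image _
  have h2 : Set.InjOn (fun x : Additive ↥(Subgroup.center G) => ((Additive.toMul x : _) : G))
      ((fun x : Additive ↥(Subgroup.center G) => ((Additive.toMul x : _) : G)) ⁻¹'
        ((fun h : G => a * h⁻¹) '' {h : G | IsConj a h})) := by
    intro x _ y _ h
    exact Subtype.ext h
  refine (h1.preimage h2).subset ?_
  rintro x ⟨g, hg⟩
  refine ⟨g * a * g⁻¹, isConj_iff.2 ⟨g, rfl⟩, ?_⟩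
  have h3 : ((Additive.toMul x : ↥(Subgroup.center G)) : G) = ⁅a, g⁆ := by
    have := congrArg (fun t : ↥(Subgroup.center G) => (t : G)) hg
    exact this.symm
  show a * (g * a * g⁻¹)⁻¹ = ((Additive.toMul x : ↥(Subgroup.center G)) : G)
  rw [h3, commutatorElement_def]
  group

open Classical in
/-- The commutator of a decreasing pair, placed in the coordinate `R a ⊓ R b`. -/
noncomputable def bb (hc : commutator G ≤ Subgroup.center G) (a b : G) :
    AddSubgroup (Additive ↥(Subgroup.center G)) →₀ Additive ↥(Subgroup.center G) :=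
  if WellOrderingRel b a then Finsupp.single (R hc a ⊓ R hc b) (cc hc a b) else 0

/-- The ambient group. -/
abbrev E (hc : commutator G ≤ Subgroup.center G) : Type := Hs (bil (bb hc))

/-- The map from the free group on the set `G` to `E`. -/
noncomputable def psi (hc : commutator G ≤ Subgroup.center G) : FreeGroup G →* E hc :=
  FreeGroup.lift (fun a => ⟨0, Finsupp.single a 1⟩)

/-- The sum of all coordinates. -/
noncomputable def sig (A : Type) [AddCommGroup A] (I : Type) : (I →₀ A) →+ A :=
  Finsupp.liftAddHom (fun _ => AddMonoidHom.id A)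

theorem sig_single (A : Type) [AddCommGroup A] (I : Type) (i : I) (a : A) :
    sig A I (Finsupp.single i a) = a := by
  simp [sig]

theorem sig_bb (hc : commutator G ≤ Subgroup.center G) (a b : G) :
    sig _ _ (bb hc a b) - sig _ _ (bb hc b a) = cc hc a b := by
  classical
  unfold bb
  rcases trichotomous_of WellOrderingRel a b with h | h | h
  · have h' : ¬ WellOrderingRel b a := asymm_of _ h
    rw [if_neg h', if_pos h, sig_single, map_zero, zero_sub, ← cc_symm]
  · subst h
    rw [cc_self, sub_self]
  · have h' : ¬ WellOrderingRel a b := asymm_of _ h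
    rw [if_pos h, if_neg h', sig_single, map_zero, sub_zero]

omit [Group G] in
theorem free_biadd {A : Type} [AddCommGroup A] (f g : FreeGroup G → FreeGroup G → A)
    (hf1 : ∀ x y w, f (x * y) w = f x w + f y w) (hf2 : ∀ x y w, f x (y * w) = f x y + f x w)
    (hg1 : ∀ x y w, g (x * y) w = g x w + g y w) (hg2 : ∀ x y w, g x (y * w) = g x y + g x w)
    (h : ∀ a b, f (FreeGroup.of a) (FreeGroup.of b) = g (FreeGroup.of a) (FreeGroup.of b)) :
    ∀ x y, f x y = g x y := by
  have h1 : ∀ a y, f (FreeGroup.of a) y = g (FreeGroup.of a) y := by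
    intro a y
    let F1 : FreeGroup G →* Multiplicative A :=
      MonoidHom.mk' (fun y => Multiplicative.ofAdd (f (FreeGroup.of a) y)) (by
        intro y w; rw [hf2]; rfl)
    let F2 : FreeGroup G →* Multiplicative A :=
      MonoidHom.mk' (fun y => Multiplicative.ofAdd (g (FreeGroup.of a) y)) (by
        intro y w; rw [hg2]; rfl)
    have : F1 = F2 := FreeGroup.ext_hom _ _ (fun b => congrArg Multiplicative.ofAdd (h a b))
    exact congrArg Multiplicative.toAdd (DFunLike.congr_fun this y)
  intro x y
  let F1 : FreeGroup G →* Multiplicative A :=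
    MonoidHom.mk' (fun x => Multiplicative.ofAdd (f x y)) (by
      intro x w; rw [hf1]; rfl)
  let F2 : FreeGroup G →* Multiplicative A :=
    MonoidHom.mk' (fun x => Multiplicative.ofAdd (g x y)) (by
      intro x w; rw [hg1]; rfl)
  have : F1 = F2 := FreeGroup.ext_hom _ _ (fun a => congrArg Multiplicative.ofAdd (h1 a y))
  exact congrArg Multiplicative.toAdd (DFunLike.congr_fun this x)

/-- For two words, the commutator in `G` is given by the bilinear map. -/
theorem cc_words (hc : commutator G ≤ Subgroup.center G) (u w : FreeGroup G) :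
    cc hc (FreeGroup.lift id u) (FreeGroup.lift id w) =
      sig _ _ (bil (bb hc) (psi hc u).v (psi hc w).v)
        - sig _ _ (bil (bb hc) (psi hc w).v (psi hc u).v) := by
  refine free_biadd (fun u w => cc hc (FreeGroup.lift id u) (FreeGroup.lift id w))
    (fun u w => sig _ _ (bil (bb hc) (psi hc u).v (psi hc w).v)
        - sig _ _ (bil (bb hc) (psi hc w).v (psi hc u).v)) ?_ ?_ ?_ ?_ ?_ u w
  · intro x y w
    simp only [map_mul]
    apply congrArg Additive.ofMul
    apply Subtype.ext
    exact comm_mul_left hc _ _ _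
  · intro x y w
    simp only [map_mul]
    apply congrArg Additive.ofMul
    apply Subtype.ext
    exact comm_mul_right hc _ _ _
  · intro x y w
    simp only [map_mul, Hs.mul_v, map_add, AddMonoidHom.add_apply]
    abel
  · intro x y w
    simp only [map_mul, Hs.mul_v, map_add, AddMonoidHom.add_apply]
    abel
  · intro a b
    simp only [psi, FreeGroup.lift_apply_of, id_eq, bil_single, one_smul]
    exact (sig_bb hc a b).symm

theorem comm_words (hc : commutator G ≤ Subgroup.center G) (w : FreeGroup G)
    (hw : w ∈ commutator (FreeGroup G)) :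
    (psi hc w).v = 0 ∧ FreeGroup.lift id w =
      ((Additive.toMul (sig _ _ (psi hc w).z) : ↥(Subgroup.center G)) : G) := by
  let S : Subgroup (FreeGroup G) :=
    { carrier := {w | (psi hc w).v = 0 ∧ FreeGroup.lift id w =
        ((Additive.toMul (sig _ _ (psi hc w).z) : ↥(Subgroup.center G)) : G)}
      one_mem' := by
        simp
      mul_mem' := by
        rintro a b ⟨ha, ha'⟩ ⟨hb, hb'⟩
        refine ⟨by simp [ha, hb], ?_⟩
        rw [map_mul, map_mul, Hs.mul_z, ha, map_zero, AddMonoidHom.zero_apply, add_zero,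
          map_add, ha', hb']
        rfl
      inv_mem' := by
        rintro a ⟨ha, ha'⟩
        refine ⟨by simp [ha], ?_⟩
        rw [map_inv, map_inv, Hs.inv_z, ha, map_zero, add_zero, map_neg, ha']
        rfl }
  have h : commutator (FreeGroup G) ≤ S := by
    rw [commutator_def, Subgroup.commutator_le]
    intro x _ y _
    refine ⟨?_, ?_⟩
    · rw [map_commutatorElement]
      exact Hs.comm_v _ _
    · rw [map_commutatorElement, map_commutatorElement, Hs.comm_z, map_sub, ← cc_words]
      rfl
  exact h hw

theorem mem_comm_of_v (hc : commutator G ≤ Subgroup.center G) (w : FreeGroup G)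
    (hw : (psi hc w).v = 0) : w ∈ commutator (FreeGroup G) := by
  let τ : (G →₀ ℤ) →+ Additive (Abelianization (FreeGroup G)) :=
    Finsupp.liftAddHom (fun a => zmultiplesHom _
      (Additive.ofMul (Abelianization.of (FreeGroup.of a))))
  let F1 : FreeGroup G →* Abelianization (FreeGroup G) :=
    MonoidHom.mk' (fun w => Additive.toMul (τ (psi hc w).v)) (by
      intro a b
      rw [map_mul, Hs.mul_v, map_add]
      rfl)
  have h : F1 = Abelianization.of := by
    refine FreeGroup.ext_hom _ _ (fun a => ?_)
    show Additive.toMul (τ (psi hc (FreeGroup.of a)).v) = _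
    simp [psi, τ]
  have h2 : Abelianization.of w = 1 := by
    rw [← h]
    show Additive.toMul (τ (psi hc w).v) = 1
    rw [hw, map_zero]
    rfl
  rw [← Abelianization.ker_of]
  exact h2

/-- The coordinates. -/
noncomputable def ev (A : Type) [AddCommGroup A] (I : Type) : Option I → ((I →₀ A) →+ A)
  | none => 0
  | some i => Finsupp.applyAddHom i

/-- The letters active in a coordinate. -/
def act (hc : commutator G ≤ Subgroup.center G) :
    Option (AddSubgroup (Additive ↥(Subgroup.center G))) → G → Prop
  | none => fun _ => True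
  | some F => fun a => F ≤ R hc a

theorem act_of_ne (hc : commutator G ≤ Subgroup.center G)
    (i : Option (AddSubgroup (Additive ↥(Subgroup.center G)))) (a b : G)
    (h : ev _ _ i (bb hc a b) ≠ 0) : act hc i a ∧ act hc i b := by
  classical
  cases i with
  | none => exact ⟨trivial, trivial⟩
  | some F =>
    have h1 : (bb hc a b) F ≠ 0 := h
    unfold bb at h1
    split_ifs at h1 with h2
    · rw [Finsupp.single_apply] at h1
      split_ifs at h1 with h3
      · subst h3
        exact ⟨inf_le_left, inf_le_right⟩
      · exact absurd rfl h1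
    · exact absurd rfl h1

/-- The factor groups. -/
abbrev KK (hc : commutator G ≤ Subgroup.center G)
    (i : Option (AddSubgroup (Additive ↥(Subgroup.center G)))) : Type :=
  Hs (bil (fun a b => ev _ _ i (bb hc a b)))

open Classical in
/-- The coordinate homomorphisms. -/
noncomputable def Th (hc : commutator G ≤ Subgroup.center G)
    (i : Option (AddSubgroup (Additive ↥(Subgroup.center G)))) : E hc →* KK hc i :=
  Hs.map (ev _ _ i) (Finsupp.filterAddHom (act hc i)) (by
    intro l l'
    rw [bil_filter _ _ (act_of_ne hc i), bil_map])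

theorem KK_finDerived (hG : IsFC G) (hc : commutator G ≤ Subgroup.center G)
    (i : Option (AddSubgroup (Additive ↥(Subgroup.center G)))) : FinDerived (KK hc i) := by
  classical
  cases i with
  | none =>
    refine Hs.finDerived ⊥ inferInstance ?_
    intro l l'
    refine bil_mem _ _ ?_ l l'
    intro a b
    rfl
  | some F =>
    by_cases hF : Finite F
    · refine Hs.finDerived F hF ?_
      intro l l'
      refine bil_mem _ _ ?_ l l'
      intro a b
      show (bb hc a b) F ∈ F
      unfold bb
      split_ifs with h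
      · rw [Finsupp.single_apply]
        split_ifs with h3
        · rw [← h3]
          exact ⟨cc_mem_left hc a b, cc_mem_right hc a b⟩
        · exact F.zero_mem
      · exact F.zero_mem
    · refine Hs.finDerived ⊥ inferInstance ?_
      intro l l'
      refine bil_mem _ _ ?_ l l'
      intro a b
      show (bb hc a b) F ∈ _
      unfold bb
      split_ifs with h
      · rw [Finsupp.single_apply]
        split_ifs with h3
        · exfalso
          apply hF
          rw [← h3]
          exact ((R_finite hG hc a).subset (fun x hx => hx.1)).to_subtype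
        · exact AddSubgroup.zero_mem _
      · exact AddSubgroup.zero_mem _

theorem Th_finite (hG : IsFC G) (hc : commutator G ≤ Subgroup.center G) (x : E hc) :
    {i | Th hc i x ≠ 1}.Finite := by
  classical
  have h1 : ∀ a : G, {F : AddSubgroup (Additive ↥(Subgroup.center G)) | F ≤ R hc a}.Finite := by
    intro a
    have h2 := (R_finite hG hc a).finite_subsets
    exact h2.preimage (f := fun F : AddSubgroup (Additive ↥(Subgroup.center G)) =>
      (F : Set (Additive ↥(Subgroup.center G)))) SetLike.coe_injective.injOn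
  have h3 : ({none} ∪ (some '' ((x.z.support : Set _) ∪
      ⋃ a ∈ (x.v.support : Set G), {F | F ≤ R hc a}))).Finite := by
    refine (Set.finite_singleton _).union (Set.Finite.image _ ?_)
    refine (Finset.finite_toSet _).union ?_
    exact Set.Finite.biUnion (Finset.finite_toSet _) (fun a _ => h1 a)
  refine h3.subset ?_
  intro i hi
  cases i with
  | none => exact Or.inl rfl
  | some F =>
    refine Or.inr ⟨F, ?_, rfl⟩
    by_contra hn
    apply hi
    have h4 : x.z F = 0 := by
      by_contra h5
      exact hn (Or.inl (by simpa using h5))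
    have h6 : ∀ a, F ≤ R hc a → x.v a = 0 := by
      intro a ha
      by_contra h5
      refine hn (Or.inr ?_)
      refine Set.mem_biUnion (x := a) ?_ ha
      simpa using h5
    apply Hs.ext
    · exact h4
    · show Finsupp.filter (fun a => F ≤ R hc a) x.v = 0
      ext a
      rw [Finsupp.filter_apply]
      split_ifs with h7
      · exact h6 a h7
      · rfl

theorem Th_injective (hc : commutator G ≤ Subgroup.center G) (x : E hc)
    (hx : ∀ i, Th hc i x = 1) : x = 1 := by
  classical
  apply Hs.ext
  · exact Finsupp.ext (fun F => congrArg Hs.z (hx (some F)))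
  · have h1 := congrArg Hs.v (hx none)
    have h2 : Finsupp.filter (act hc none) x.v = 0 := h1
    ext a
    have h3 := DFunLike.congr_fun h2 a
    rw [Finsupp.filter_apply, if_pos (show act hc none a from trivial)] at h3
    exact h3

/-- Every FC-group of class at most two lies in the direct variety generated by the groups with
finite derived subgroup. -/
theorem classTwo (hG : IsFC G) (hc : commutator G ≤ Subgroup.center G) :
    InDV (fun H _ => FinDerived H) G := by
  classical
  intro C hC hY
  have h1 : ∀ i, C (KK hc i) := fun i => hY _ (KK_finDerived hG hc i)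
  have h2 := hC.prod _ (KK hc) h1
  let Ψ : FreeGroup G →* ↥(⨆ i, (MonoidHom.mulSingle (KK hc) i).range) :=
    MonoidHom.mk' (fun w => ⟨fun i => Th hc i (psi hc w),
      mem_restricted (KK hc) _ (Th_finite hG hc (psi hc w))⟩) (by
      intro a b
      apply Subtype.ext
      funext i
      show Th hc i (psi hc (a * b)) = Th hc i (psi hc a) * Th hc i (psi hc b)
      rw [map_mul, map_mul])
  have h3 : C Ψ.range := hC.sub _ _ h2
  let Pr : FreeGroup G →* G := FreeGroup.lift id
  have hk : Ψ.rangeRestrict.ker ≤ Pr.ker := by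
    intro w hw
    rw [MonoidHom.ker_rangeRestrict] at hw
    have h4 : ∀ i, Th hc i (psi hc w) = 1 := by
      intro i
      have h5 : Ψ w = 1 := hw
      exact congrFun (congrArg Subtype.val h5) i
    have h6 := Th_injective hc _ h4
    have h7 : (psi hc w).v = 0 := by rw [h6]; rfl
    have h8 := comm_words hc w (mem_comm_of_v hc w h7)
    show FreeGroup.lift id w = 1
    rw [h8.2, h6]
    simp
  let h : ↥Ψ.range →* G :=
    MonoidHom.liftOfSurjective Ψ.rangeRestrict Ψ.rangeRestrict_surjective ⟨Pr, hk⟩
  have hh : Function.Surjective h := by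
    intro g
    refine ⟨Ψ.rangeRestrict (FreeGroup.of g), ?_⟩
    have h9 := MonoidHom.liftOfRightInverse_comp_apply Ψ.rangeRestrict _
      (Function.rightInverse_surjInv Ψ.rangeRestrict_surjective) ⟨Pr, hk⟩ (FreeGroup.of g)
    refine h9.trans ?_
    show FreeGroup.lift id (FreeGroup.of g) = g
    simp
  exact hC.iso _ _ (QuotientGroup.quotientKerEquivOfSurjective h hh) (hC.quot _ _ h3)

end Main

/-! ### FC-groups with quasicyclic derived subgroup have class at most two -/

theorem quasi_elem {p : ℕ} (x : ↥(⨆ n : ℕ, rootsOfUnity (p ^ n) ℂ)) :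
    ∃ n : ℕ, (x : ℂˣ) ∈ rootsOfUnity (p ^ n) ℂ := by
  have hd : Directed (· ≤ ·) (fun n : ℕ => rootsOfUnity (p ^ n) ℂ) := by
    apply Monotone.directed_le
    intro m n hmn
    exact rootsOfUnity_le_of_dvd (pow_dvd_pow p hmn)
  exact (Subgroup.mem_iSup_of_directed hd).1 x.2

theorem quasi_torsion {p : ℕ} (x : ↥(⨆ n : ℕ, rootsOfUnity (p ^ n) ℂ)) :
    ∃ n : ℕ, x ^ (p ^ n) = 1 := by
  obtain ⟨n, hn⟩ := quasi_elem x
  refine ⟨n, ?_⟩
  apply Subtype.ext
  exact hn

theorem quasi_div {p : ℕ} (hp : p.Prime) (k : ℕ) (x : ↥(⨆ n : ℕ, rootsOfUnity (p ^ n) ℂ)) :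
    ∃ y : ↥(⨆ n : ℕ, rootsOfUnity (p ^ n) ℂ), y ^ (p ^ k) = x := by
  obtain ⟨n, hn⟩ := quasi_elem x
  have hk : 0 < p ^ k := pow_pos hp.pos k
  obtain ⟨w, hw⟩ := IsAlgClosed.exists_pow_nat_eq (((x : ℂˣ) : ℂ)) hk
  have hw0 : w ≠ 0 := by
    rintro rfl
    rw [zero_pow hk.ne'] at hw
    exact (x : ℂˣ).ne_zero hw.symm
  have h1 : (Units.mk0 w hw0) ^ (p ^ k) = (x : ℂˣ) := by
    apply Units.ext
    simpa using hw
  have h2 : (Units.mk0 w hw0) ∈ rootsOfUnity (p ^ (k + n)) ℂ := by
    rw [mem_rootsOfUnity, pow_add, pow_mul, h1]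
    exact hn
  have h3 : (Units.mk0 w hw0) ∈ (⨆ n : ℕ, rootsOfUnity (p ^ n) ℂ) :=
    (le_iSup (fun n : ℕ => rootsOfUnity (p ^ n) ℂ) (k + n)) h2
  exact ⟨⟨_, h3⟩, Subtype.ext h1⟩

theorem quasi_central {G : Type} [Group G] (h : QuasiDerived G) :
    commutator G ≤ Subgroup.center G := by
  obtain ⟨hG, p, hp, ⟨e⟩⟩ := h
  have hab : ∀ x y : ↥(commutator G), x * y = y * x := by
    intro x y
    apply e.injective
    rw [map_mul, map_mul, mul_comm]
  intro x hx
  rw [Subgroup.mem_center_iff]
  intro g
  -- the homomorphism `y ↦ ⁅y, g⁆` on the derived subgroup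
  let δ : ↥(commutator G) →* ↥(commutator G) :=
    MonoidHom.mk' (fun y => ⟨⁅(y : G), g⁆,
      Subgroup.commutator_mem_commutator (Subgroup.mem_top _) (Subgroup.mem_top _)⟩) (by
      intro a b
      apply Subtype.ext
      show ⁅(a : G) * (b : G), g⁆ = ⁅(a : G), g⁆ * ⁅(b : G), g⁆
      have h1 : ⁅(a : G) * (b : G), g⁆ = (a : G) * ⁅(b : G), g⁆ * (a : G)⁻¹ * ⁅(a : G), g⁆ := by
        simp only [commutatorElement_def]; group
      have hb : ⁅(b : G), g⁆ ∈ commutator G :=
        Subgroup.commutator_mem_commutator (Subgroup.mem_top _) (Subgroup.mem_top _)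
      have ha : ⁅(a : G), g⁆ ∈ commutator G :=
        Subgroup.commutator_mem_commutator (Subgroup.mem_top _) (Subgroup.mem_top _)
      have h2 : (a : G) * ⁅(b : G), g⁆ = ⁅(b : G), g⁆ * (a : G) :=
        congrArg Subtype.val (hab a ⟨_, hb⟩)
      have h3 : ⁅(b : G), g⁆ * ⁅(a : G), g⁆ = ⁅(a : G), g⁆ * ⁅(b : G), g⁆ :=
        congrArg Subtype.val (hab ⟨_, hb⟩ ⟨_, ha⟩)
      rw [h1, h2, mul_inv_cancel_right, h3])
  have hfin : (Set.range δ).Finite := by
    have h1 : ((fun h : G => h * g⁻¹) '' {h : G | IsConj g h}).Finite := (hG g).image _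
    refine (h1.preimage (f := fun y : ↥(commutator G) => (y : G))
      Subtype.val_injective.injOn).subset ?_
    rintro _ ⟨y, rfl⟩
    refine ⟨y * g * (y : G)⁻¹, isConj_iff.2 ⟨y, rfl⟩, ?_⟩
    show (y : G) * g * (y : G)⁻¹ * g⁻¹ = ⁅(y : G), g⁆
    rw [commutatorElement_def]
  have htor : ∀ y : ↥(commutator G), ∃ n : ℕ, y ^ (p ^ n) = 1 := by
    intro y
    obtain ⟨n, hn⟩ := quasi_torsion (e y)
    refine ⟨n, ?_⟩
    apply e.injective
    rw [map_pow, hn, map_one]
  choose N hN using htor
  obtain ⟨k, hk⟩ : ∃ k, ∀ y ∈ Set.range δ, N y ≤ k := by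
    obtain ⟨k, hk⟩ := (hfin.image N).bddAbove
    exact ⟨k, fun y hy => hk ⟨y, hy, rfl⟩⟩
  have hone : ∀ y : ↥(commutator G), δ y = 1 := by
    intro y
    obtain ⟨u, hu⟩ := quasi_div hp k (e y)
    have h1 : (e.symm u) ^ (p ^ k) = y := by
      apply e.injective
      rw [map_pow, e.apply_symm_apply, hu]
    rw [← h1, map_pow]
    have h2 : N (δ (e.symm u)) ≤ k := hk _ ⟨_, rfl⟩
    obtain ⟨m, hm⟩ := pow_dvd_pow p h2
    rw [hm, pow_mul, hN, one_pow]
  have h4 : ⁅x, g⁆ = 1 := congrArg Subtype.val (hone ⟨x, hx⟩)
  exact ((commutatorElement_eq_one_iff_mul_comm.1 h4)).symm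

/-- The main result. Every FC-group of class at most two lies in the direct variety generated by
the groups with finite derived subgroup, and adding the FC-groups with quasicyclic derived
subgroup does not enlarge that direct variety. -/
theorem result :
    (∀ (G : Type) [Group G], IsFC G → commutator G ≤ Subgroup.center G →
      InDV (fun H _ => FinDerived H) G) ∧
    (∀ (G : Type) [Group G],
      InDV (fun H _ => FinDerived H ∨ QuasiDerived H) G ↔ InDV (fun H _ => FinDerived H) G) := by
  refine ⟨fun G _ h1 h2 => classTwo h1 h2, ?_⟩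
  intro G _
  constructor
  · intro h C hC hY
    refine h C hC ?_
    intro H _ hH
    rcases hH with hH | hH
    · exact hY H hH
    · exact classTwo hH.1 (quasi_central hH) C hC hY
  · intro h C hC hY
    exact h C hC (fun H _ hH => hY H (Or.inl hH))

end Pool.Agent.Results.MP_fb3574_al.ClassTwo
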